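import Pool.Agent.H40.Fac1
import Pool.Agent.H40.JzDefs5

set_option autoImplicit false

namespace Pool.Agent.Results.MP_7d095a_lc.Model

open Pool.Agent.H40.Bspt Pool.Agent.H40.Jz Pool.Agent.H40.Js Pool.Agent.H40.Fac Set Filter Sum Equiv

theorem esb {Λ X Y : Type} [Group Λ] [MulAction Λ X] [MulAction Λ Y] {f : X → Y} {g : Y → X}
    (hf : Function.Injective f) (hg : Function.Injective g) (ef : ∀ (γ : Λ) x, f (γ • x) = γ • f x)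
    (eg : ∀ (γ : Λ) y, g (γ • y) = γ • g y) :
    ∃ h : X → Y, Function.Bijective h ∧ ∀ (γ : Λ) x, h (γ • x) = γ • h x := by
  let C : X → Prop := fun x => ∀ s : Set X, (range g)ᶜ ⊆ s → (∀ z ∈ s, g (f z) ∈ s) → x ∈ s
  have c1 : ∀ x, x ∉ range g → C x := fun x a s b _ => b a
  have c2 : ∀ x, C x → C (g (f x)) := fun x a s b c => c x (a s b c)
  have c3 : ∀ y, C (g y) → ∃ x, C x ∧ y = f x := fun y a => (a {x | x ∉ range g ∨ ∃ z, C z ∧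
    x = g (f z)} (fun _ b => Or.inl b) fun z b => Or.inr ⟨z, b.elim (c1 z) fun ⟨w, c, d⟩ =>
      d ▸ c2 w c, rfl⟩).elim (absurd ⟨y, rfl⟩) fun ⟨z, b, c⟩ => ⟨z, b, hg c⟩
  have c4 : ∀ (γ : Λ) x, C x → C (γ • x) := fun γ x a => a {x | C (γ • x)}
    (fun x b => c1 _ fun ⟨y, c⟩ => b ⟨γ⁻¹ • y, by rw [eg, c, inv_smul_smul]⟩) fun z b => by
      have := c2 _ b
      rwa [ef, eg] at this
  let H : X → Y → Prop := fun x y => C x ∧ y = f x ∨ ¬ C x ∧ g y = x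
  have h1 : ∀ x y y', H x y → H x y' → y = y' := by
    rintro x y y' (a | a) (b | b)
    exacts [a.2.trans b.2.symm, absurd a.1 b.1, absurd b.1 a.1, hg (a.2.trans b.2.symm)]
  choose h hh using fun x => show ∃ y, H x y from (em (C x)).elim (fun a => ⟨_, Or.inl ⟨a, rfl⟩⟩)
    fun a => (not_not.1 (mt (c1 x) a)).imp fun y b => Or.inr ⟨a, b⟩
  refine ⟨h, ⟨fun x x' e => ?_, fun y => ?_⟩, fun γ x => h1 _ _ _ (hh _) ((hh x).imp
    (fun a => ⟨c4 γ x a.1, by rw [ef, a.2]⟩) fun a => ⟨fun b => a.1 (by simpa using c4 γ⁻¹ _ b),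
      by rw [eg, a.2]⟩)⟩
  · rcases hh x with a | a <;> rcases hh x' with b | b
    · exact hf (a.2.symm.trans (e.trans b.2))
    · exact absurd (by rw [← b.2, ← e, a.2]; exact c2 x a.1) b.1
    · exact absurd (by rw [← a.2, e, b.2]; exact c2 x' b.1) a.1
    · rw [← a.2, e, b.2]
  · by_cases a : C (g y)
    · obtain ⟨x, b, c⟩ := c3 y a
      exact ⟨x, h1 _ _ _ (hh x) (Or.inl ⟨b, c⟩)⟩
    · exact ⟨_, h1 _ _ _ (hh _) (Or.inr ⟨a, rfl⟩)⟩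

theorem invol {X : Type} {R : X → X → Prop} (h0 : ∀ x, ¬ R x x) (h1 : ∀ x y, R x y → R y x)
    (h2 : ∀ x y z, R x y → R x z → y = z) : ∃ τ : Perm X, ∀ x y, (τ x = y ∧ x ≠ y) ↔ R x y := by
  choose f hf using fun x => show ∃ y, R x y ∨ y = x ∧ ∀ z, ¬ R x z from
    (em (∃ y, R x y)).elim (·.imp fun _ => Or.inl) fun a => ⟨x, Or.inr ⟨rfl, not_exists.1 a⟩⟩
  have k : ∀ x y, R x y → f x = y := fun x y a => (hf x).elim (h2 _ _ _ · a) fun b => absurd a (b.2 y)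
  have : Function.Involutive f := fun x => (hf x).elim (fun a => k _ _ (h1 _ _ a)) fun a => by
    rw [a.1, a.1]
  exact ⟨this.toPerm, fun x y => ⟨fun ⟨a, b⟩ => a ▸ (hf x).resolve_right fun c => b (c.1.symm.trans a),
    fun a => ⟨k x y a, fun b => h0 x (b ▸ a)⟩⟩⟩

instance : NF G := suppNF G (univ : Set A) fun _ _ _ => trivial

theorem ev {p : G → Prop} : (∀ᶠ g in NF.F, p g) ↔
    ∃ F : Set A, F.Finite ∧ F ⊆ univ ∧ ∀ g : G, (∀ y ∈ F, g • y = y) → p g := supp_iff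

instance : Fx G A := ⟨fun a => ev.2 ⟨{a}, finite_singleton a, subset_univ _, fun _ h => h a rfl⟩⟩

def Is3 (X : Set A) : Prop := ∃ a b c, a ≠ b ∧ a ≠ c ∧ b ≠ c ∧ ∀ z, z ∈ X ↔ z = a ∨ z = b ∨ z = c

theorem Is3.fin {X : Set A} (h : Is3 X) : X.Finite := by
  obtain ⟨a, b, c, -, -, -, h⟩ := h
  exact (toFinite {a, b, c}).subset fun z e => (h z).1 e

def Th : SubMulAction G (PS G A) where
  carrier := {X | Is3 X.1}
  smul_mem' g X := fun ⟨a, b, c, h1, h2, h3, h⟩ => ⟨g • a, g • b, g • c, by simpa, by simpa,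
    by simpa, fun z => (h _).trans (by simp only [inv_smul_eq_iff])⟩

def T (i : I) : Set A := range fun c => inr (i, c)

def TT (i : I) : Th := ⟨⟨T i, sym_fin (t := .a) (finite_range _)⟩, inr (i, 0), inr (i, 1), inr (i, 2),
  by simp, by simp, by simp, fun z => by simp [T, Fin.exists_fin_succ, eq_comm]⟩

theorem t_sm (g : G) {i : I} {x : A} (h : x ∈ T i) : g • x ∈ T (Φ g.1 i) := by
  obtain ⟨c, rfl⟩ := h
  exact (g.2 i c).imp fun _ e => e.symm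

theorem tt_sm (g : G) (i : I) : g • TT i = TT (Φ g.1 i) :=
  Subtype.ext (Subtype.ext (Set.ext fun x => ⟨fun a => by simpa [TT] using t_sm g (i := i) (x := g⁻¹ • x) a,
    fun a => show g⁻¹ • x ∈ T i by simpa using t_sm g⁻¹ a⟩))

theorem t_eq {i j : I} {x : A} (a : x ∈ T i) (b : x ∈ T j) : i = j := by
  obtain ⟨_, rfl⟩ := a
  obtain ⟨_, b⟩ := b
  exact (Prod.ext_iff.1 (inr_injective b)).1.symm

theorem tt_inj : Function.Injective TT := fun i _ e =>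
  t_eq ⟨0, rfl⟩ ((Set.ext_iff.1 (congrArg (fun X : Th => X.1.1) e) (inr (i, 0))).1 ⟨0, rfl⟩)

def Tri (x y z : A) : Prop := x ≠ y ∧ x ≠ z ∧ y ≠ z ∧ ∃ i, x ∈ T i ∧ y ∈ T i ∧ z ∈ T i

theorem tri_sm (g : G) {x y z : A} (h : Tri x y z) : Tri (g • x) (g • y) (g • z) :=
  let ⟨a, b, c, _, d, e, f⟩ := h
  ⟨by simpa, by simpa, by simpa, _, t_sm g d, t_sm g e, t_sm g f⟩

theorem tri_all {x p q y : A} {i : I} (h : Tri x p q) (a : x ∈ T i) (b : y ∈ T i) :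
    y = x ∨ y = p ∨ y = q := by
  obtain ⟨h1, h2, h3, j, d, ⟨e, rfl⟩, f, rfl⟩ := h
  obtain rfl := t_eq a d
  obtain ⟨c, rfl⟩ := a
  obtain ⟨c', rfl⟩ := b
  simp only [ne_eq, inr.injEq, Prod.mk.injEq, true_and] at *
  omega

theorem tri2 {x y z p q : A} (h : Tri x y z) (h' : Tri x p q) : y = p ∨ y = q :=
  let ⟨a, _, _, _, b, c, _⟩ := h
  (tri_all h' b c).resolve_left a.symm

theorem tri_ex (i : I) (c : Fin 3) : ∃ y z, Tri (inr (i, c)) y z := by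
  refine ⟨inr (i, c + 1), inr (i, c + 2), ?_, ?_, ?_, i, ⟨_, rfl⟩, ⟨_, rfl⟩, _, rfl⟩ <;>
    simp only [ne_eq, inr.injEq, Prod.mk.injEq, true_and] <;> revert c <;> decide

theorem Tri.s1 {x y z : A} (h : Tri x y z) : Tri y x z :=
  let ⟨a, b, c, i, d, e, f⟩ := h
  ⟨a.symm, c, b, i, e, d, f⟩

theorem Tri.s2 {x y z : A} (h : Tri x y z) : Tri x z y :=
  let ⟨a, b, c, i, d, e, f⟩ := h
  ⟨b, a, c.symm, i, d, f, e⟩

theorem Tri.nb {n : ℕ} {y z : A} (h : Tri (inl n) y z) : False := by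
  obtain ⟨-, -, -, i, ⟨_, a⟩, -⟩ := h
  cases a

def D (X : Set A) (y : A) : Prop := y ∉ X ∧ ∃ p ∈ X, ∃ q ∈ X, Tri y p q

def R (X : Set A) (x y : A) : Prop :=
  (x ∉ X ∧ y ∉ X ∧ ∃ z ∈ X, Tri x y z) ∨ x = inl 0 ∧ D X y ∨ y = inl 0 ∧ D X x

theorem r_sm (g : G) {X : PS G A} {x y : A} (h : R X.1 x y) : R (g • X).1 (g • x) (g • y) := by
  have d : ∀ {y}, D X.1 y → D (g • X).1 (g • y) := fun ⟨a, p, b, q, c, e⟩ =>
    ⟨mt smul_mem.1 a, _, smul_mem.2 b, _, smul_mem.2 c, tri_sm g e⟩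
  exact h.imp (fun ⟨a, b, z, c, e⟩ => ⟨mt smul_mem.1 a, mt smul_mem.1 b, _, smul_mem.2 c, tri_sm g e⟩)
    (Or.imp (fun ⟨a, b⟩ => ⟨a ▸ g.1.2 0, d b⟩) fun ⟨a, b⟩ => ⟨a ▸ g.1.2 0, d b⟩)

theorem d_uniq {X : Set A} (h : Is3 X) {y z : A} (a : D X y) (b : D X z) : y = z := by
  obtain ⟨a1, p, a2, q, a3, a4⟩ := a
  obtain ⟨b1, r, b2, s, b3, b4⟩ := b
  have k : ∀ {p q r s}, p ∈ X → q ∈ X → Tri y p q → Tri z r s → p = r → y = z :=
    fun {p q r s} c d e f g => (tri2 (g ▸ f.s1) e.s1).elim Eq.symm fun i => absurd (i ▸ d) b1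
  have : p = r ∨ p = s ∨ q = r ∨ q = s := by
    obtain ⟨u, v, w, -, -, -, h⟩ := h
    have := a4.2.2.1
    have := b4.2.2.1
    rw [h] at a2 a3 b2 b3
    grind
  rcases this with e | e | e | e
  exacts [k a2 a3 a4 b4 e, k a2 a3 a4 b4.s2 e, k a3 a2 a4.s2 b4 e, k a3 a2 a4.s2 b4.s2 e]

theorem ex_tau {X : Set A} (h : Is3 X) : ∃ τ : S, ∀ x y, (τ.1 x = y ∧ x ≠ y) ↔ R X x y := by
  have d0 : ¬ D X (inl 0) := fun ⟨_, _, _, _, _, a⟩ => a.nb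
  obtain ⟨τ, hτ⟩ := invol (R := R X) (by
      rintro x (⟨-, -, z, -, a⟩ | ⟨rfl, a⟩ | ⟨rfl, a⟩)
      exacts [a.1 rfl, d0 a, d0 a])
    (fun x y a => a.imp (fun ⟨b, c, z, d, e⟩ => ⟨c, b, z, d, e.s1⟩) Or.symm) (by
      rintro x y z (⟨a, b, p, c, d⟩ | ⟨rfl, a⟩ | ⟨rfl, a⟩) (⟨a', b', q, c', d'⟩ | ⟨e, a'⟩ | ⟨rfl, a'⟩)
      · exact (tri2 d d').resolve_right fun e => b (e ▸ c')
      · exact (e ▸ d).nb.elim
      · obtain ⟨-, r, e, s, f, k⟩ := a'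
        exact ((tri2 d k).elim (fun i => b (i ▸ e)) fun i => b (i ▸ f)).elim
      · exact d'.nb.elim
      · exact d_uniq h a a'
      · exact (d0 a').elim
      · obtain ⟨-, r, e, s, f, k⟩ := a
        exact ((tri2 d' k).elim (fun i => b' (i ▸ e)) fun i => b' (i ▸ f)).elim
      · exact (d0 (e ▸ a)).elim
      · rfl)
  refine ⟨⟨τ, (h.fin.biUnion (t := fun z => {x | ∃ i, x ∈ T i ∧ z ∈ T i}) fun z _ => ?_).subset
    fun x a => ?_⟩, hτ⟩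
  · rcases z with n | ⟨i, c⟩
    · exact finite_empty.subset fun _ ⟨_, _, _, b⟩ => by cases b
    · exact (finite_range _).subset fun x ⟨j, b, d⟩ => (t_eq d ⟨c, rfl⟩ ▸ b : x ∈ T i)
  · rcases (hτ x _).1 ⟨rfl, a.2.symm⟩ with ⟨-, -, z, b, -, -, -, i, c, -, d⟩ | ⟨b, -⟩ |
      ⟨-, -, z, b, -, -, -, -, -, i, c, d, -⟩
    exacts [mem_biUnion b ⟨i, c, d⟩, absurd ⟨0, b.symm⟩ a.1, mem_biUnion b ⟨i, c, d⟩]

abbrev C : Type := Unit ⊕ I ⊕ Set ℕ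

def Γ (X : Th) (τ : S) (r : C) : Prop := (X = TT (ι τ) ∧ r = inl ()) ∨
  (∃ i ∉ range ι, X = TT i ∧ τ.1 = 1 ∧ r = inr (inl i)) ∨ (∀ i, X ≠ TT i) ∧
    r = inr (inr (inl ⁻¹' X.1.1)) ∧ ∀ x y, (τ.1 x = y ∧ x ≠ y) ↔ R X.1.1 x y

theorem gam_sm (g : G) {X : Th} {τ : S} {r : C} (h : Γ X τ r) : Γ (g • X) (g • τ) r := by
  refine h.imp (fun a => ⟨by rw [a.1, tt_sm, phi_i]; rfl, a.2⟩) (Or.imp (fun ⟨i, a, b, c, d⟩ =>
    ⟨i, a, by rw [b, tt_sm, phi_n _ a], (sm_val g.1 τ).trans (by simp [c]), d⟩) fun ⟨a, b, c⟩ =>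
      ⟨fun i e => a (Φ g⁻¹.1 i) (by rw [← tt_sm, ← e, inv_smul_smul]), b.trans (congrArg (inr ∘ inr)
        (Set.ext fun n => iff_of_eq (congrArg (· ∈ X.1.1) (g⁻¹.1.2 n).symm))), fun x y => ?_⟩)
  obtain ⟨x, rfl⟩ := MulAction.surjective g x
  obtain ⟨y, rfl⟩ := MulAction.surjective g y
  refine Iff.trans (Iff.trans ?_ (c x y)) ⟨r_sm g, fun e => by simpa using r_sm g⁻¹ e⟩
  exact and_congr (by
    show g.1.1 (τ.1 (g.1.1⁻¹ (g.1.1 x))) = g.1.1 y ↔ _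
    simp) (by simp)

theorem gam_ex (X : Th) : ∃ τ r, Γ X τ r := by
  by_cases a : ∃ i, X = TT i
  · obtain ⟨i, a⟩ := a
    by_cases b : i ∈ range ι
    · obtain ⟨τ, rfl⟩ := b
      exact ⟨τ, _, Or.inl ⟨a, rfl⟩⟩
    · exact ⟨⟨1, finite_empty.subset fun _ c => c.2 rfl⟩, _, Or.inr (Or.inl ⟨i, b, a, rfl, rfl⟩)⟩
  · exact (ex_tau X.2).imp fun τ b => ⟨_, Or.inr (Or.inr ⟨not_exists.1 a, rfl, b⟩)⟩

theorem gam_fun {X : Th} {τ τ' : S} {r r' : C} (h : Γ X τ r) (h' : Γ X τ' r') : τ = τ' ∧ r = r' := by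
  rcases h with ⟨a, rfl⟩ | ⟨i, a, b, c, rfl⟩ | ⟨a, rfl, b⟩ <;>
    rcases h' with ⟨a', rfl⟩ | ⟨i', a', b', c', rfl⟩ | ⟨a', rfl, b'⟩
  · exact ⟨ι.injective (tt_inj (a.symm.trans a')), rfl⟩
  · exact absurd ⟨τ, tt_inj (a.symm.trans b')⟩ a'
  · exact absurd a (a' _)
  · exact absurd ⟨τ', tt_inj (a'.symm.trans b)⟩ a
  · exact ⟨Subtype.ext (c.trans c'.symm), by rw [tt_inj (b.symm.trans b')]⟩
  · exact absurd b (a' _)
  · exact absurd a' (a _)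
  · exact absurd b' (a _)
  · refine ⟨Subtype.ext (Equiv.ext fun x => by_contra fun e => ?_), rfl⟩
    by_cases d : τ.1 x = x
    · exact e ((b x _).2 ((b' x _).1 ⟨rfl, fun f => e (d.trans f)⟩)).1
    · exact e ((b' x _).2 ((b x _).1 ⟨rfl, Ne.symm d⟩)).1.symm

theorem gam_inj {X Y : Th} {τ : S} {r : C} (h : Γ X τ r) (h' : Γ Y τ r) : X = Y := by
  have key : ∀ {X Y : Th}, (∀ i, X ≠ TT i) → inl ⁻¹' X.1.1 = inl ⁻¹' Y.1.1 →
      (∀ x y, R X.1.1 x y → R Y.1.1 x y) → X.1.1 ⊆ Y.1.1 := by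
    rintro X Y a b c (n | ⟨i, e⟩) d
    · exact (Set.ext_iff.1 b n).1 d
    obtain ⟨y, z, f⟩ := tri_ex i e
    have k : ∀ {y z}, Tri (inr (i, e)) y z → y ∈ X.1.1 → z ∉ X.1.1 → inr (i, e) ∈ Y.1.1 := by
      intro y z f k l
      rcases c (inl 0) z (Or.inr (Or.inl ⟨rfl, l, _, d, y, k, f.s2.s1⟩)) with
        ⟨-, -, w, -, m⟩ | ⟨-, -, p, m, q, n, o⟩ | ⟨-, -, _, -, _, -, m⟩
      exacts [m.nb.elim, (tri2 f.s2.s1 o).elim (· ▸ m) (· ▸ n), m.nb.elim]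
    by_cases k1 : y ∈ X.1.1 <;> by_cases k2 : z ∈ X.1.1
    · refine absurd (Subtype.ext (Subtype.ext (Set.ext fun w => ⟨fun l => ?_, fun l => ?_⟩))) (a i)
      · obtain ⟨u, v, s, -, -, -, h⟩ := X.2
        obtain ⟨f1, f2, f3, j, f4, f5, f6⟩ := f
        obtain rfl := t_eq f4 ⟨e, rfl⟩
        have : w = inr (j, e) ∨ w = y ∨ w = z := by
          rw [h] at d k1 k2 l
          grind
        rcases this with rfl | rfl | rfl
        exacts [f4, f5, f6]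
      · rcases tri_all f ⟨e, rfl⟩ l with rfl | rfl | rfl
        exacts [d, k1, k2]
    · exact k f k1 k2
    · exact k f.s2 k2 k1
    · rcases c y z (Or.inl ⟨k1, k2, _, d, f.s1.s2⟩) with ⟨-, -, w, l, m⟩ | ⟨rfl, -⟩ | ⟨rfl, -⟩
      exacts [(tri2 f.s1 m).resolve_left f.2.1 ▸ l, f.s1.nb.elim, f.s2.s1.nb.elim]
  rcases h with ⟨a, rfl⟩ | ⟨i, a, b, c, rfl⟩ | ⟨a, rfl, b⟩ <;>
    rcases h' with ⟨a', e⟩ | ⟨i', a', b', c', e⟩ | ⟨a', e, b'⟩ <;>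
    simp only [inr.injEq, inl.injEq, reduceCtorEq] at e
  · rw [a, a']
  · rw [b, b', e]
  · exact Subtype.ext (Subtype.ext ((key a e fun x y c => (b' x y).1 ((b x y).2 c)).antisymm
      (key a' e.symm fun x y c => (b x y).1 ((b' x y).2 c))))

def ee : A ↪ A := ⟨Sum.map (2 * ·) id, Sum.map_injective.2
  ⟨mul_right_injective₀ two_ne_zero, Function.injective_id⟩⟩

def oo : ℕ ↪ A := ⟨fun n => inl (2 * n + 1), fun _ _ e => by have := inl_injective e; omega⟩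

theorem eo (x : A) (n : ℕ) : ee x ≠ oo n := by
  rcases x with m | p <;> simp [ee, oo]
  omega

theorem ex_code : Nonempty (C ↪ Perm ℕ) := (Cardinal.le_def _ _).1 (by
  rw [Cardinal.mk_perm_eq_two_power]
  simp [Cardinal.mk_real, add_comm, Cardinal.add_one_eq Cardinal.aleph0_le_continuum])

theorem ex_th : ∃ Θ : S → C → S, (∀ τ r τ' r', Θ τ r = Θ τ' r' → τ = τ' ∧ r = r') ∧
    ∀ (g : G) τ r, Θ (g • τ) r = g • Θ τ r := by
  obtain ⟨κ⟩ := ex_code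
  let θ : S → C → Perm A := fun τ r => τ.1.viaEmbedding ee * (κ r).viaEmbedding oo
  have k1 : ∀ τ r x, θ τ r (ee x) = ee (τ.1 x) := fun τ r x => by
    simp only [θ, Perm.mul_apply]
    rw [Perm.viaEmbedding_apply_of_notMem _ oo _ fun ⟨n, e⟩ => eo x n e.symm, Perm.viaEmbedding_apply]
  have k2 : ∀ τ r n, θ τ r (oo n) = oo (κ r n) := fun τ r n => by
    simp only [θ, Perm.mul_apply]
    rw [Perm.viaEmbedding_apply, Perm.viaEmbedding_apply_of_notMem _ ee _ fun ⟨x, e⟩ => eo x _ e]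
  have k3 : ∀ (g : B) x, g.1 (ee x) = ee (g.1 x) := by
    rintro g (n | p)
    · exact (g.2 _).trans (congrArg ee (g.2 n).symm)
    · rcases e : g.1 (inr p) with n | q
      · exact absurd ((b_base g).1 ⟨n, e.symm⟩) (by simp)
      · exact e
  refine ⟨fun τ r => ⟨θ τ r, τ.2.subset ?_⟩, fun τ r τ' r' e => ?_, fun g τ r =>
    Subtype.ext (eq_mul_inv_iff_mul_eq.2 (Equiv.ext fun x => ?_))⟩
  · rintro (n | p) ⟨a, b⟩
    · exact absurd ⟨n, rfl⟩ a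
    · exact ⟨a, fun c => b ((k1 τ r (inr p)).trans (congrArg ee c))⟩
  · have e : θ τ r = θ τ' r' := congrArg Subtype.val e
    exact ⟨Subtype.ext (Equiv.ext fun x => ee.injective (by rw [← k1 τ r, e, k1])),
      κ.injective (Equiv.ext fun x => oo.injective (by rw [← k2 τ r, e, k2]))⟩
  · show θ (g • τ) r (g.1.1 x) = g.1.1 (θ τ r x)
    obtain ⟨y, rfl⟩ | ⟨n, rfl⟩ : x ∈ range ee ∨ x ∈ range oo := by
      rcases x with n | p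
      · exact (Nat.even_or_odd' n).elim fun m e => e.imp (fun e => ⟨inl m, congrArg inl e.symm⟩)
          fun e => ⟨m, congrArg inl e.symm⟩
      · exact Or.inl ⟨inr p, rfl⟩
    · rw [k3, k1, k1, k3]
      exact congrArg ee (congrArg g.1.1 (congrArg τ.1 (g.1.1.symm_apply_apply y)))
    · rw [show g.1.1 (oo n) = oo n from g.1.2 _, k2, k2]
      exact (g.1.2 _).symm

theorem ex_bij : ∃ h : S → Th, Function.Bijective h ∧ ∀ (g : G) x, h (g • x) = g • h x := by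
  obtain ⟨Θ, h1, h2⟩ := ex_th
  choose τ r h using gam_ex
  refine esb (f := fun σ => TT (ι σ)) (g := fun X => Θ (τ X) (r X)) (tt_inj.comp ι.injective)
    (fun X Y e => gam_inj (h X) ?_) (fun g σ => by rw [tt_sm, phi_i]; rfl) fun g X => ?_
  · rw [(h1 _ _ _ _ e).1, (h1 _ _ _ _ e).2]
    exact h Y
  · obtain ⟨a, b⟩ := gam_fun (h (g • X)) (gam_sm g (h X))
    rw [a, b, h2]

def gr (σ : S) : PS G (El G A (.p .a .a)) := ps {p | σ.1 p.1 = p.2} (sym_of (ev.2 ⟨_, σ.2,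
  subset_univ _, fun g h p (e : σ.1 p.1 = p.2) => by
    have := congrArg (fun τ : S => τ.1 (g.1.1 p.1)) (fix_conj (k := g.1) h)
    simp only [sm_val, Perm.mul_apply, Perm.coe_inv, symm_apply_apply, e] at this
    exact this.symm⟩))

theorem gr_sm (g : G) (σ : S) : g • gr σ = gr (g • σ) := Subtype.ext (Set.ext fun p => by
  show σ.1 (g.1.1⁻¹ p.1) = g.1.1⁻¹ p.2 ↔ g.1.1 (σ.1 (g.1.1⁻¹ p.1)) = p.2
  rw [Perm.eq_inv_iff_eq])

theorem result : ∃ (M : Type) (E : M → M → Prop), IsZF E ∧ ∃ A S T f, (∀ σ, E σ S ↔ IsPerm E A σ) ∧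
    (∀ X, E X T ↔ IsThree E A X) ∧ Bij E f S T := by
  obtain ⟨J⟩ := ex_js (Λ := G) (A := A) Fx.fx
  obtain ⟨h, ⟨h1, h2⟩, h3⟩ := ex_bij
  have gi : Function.Injective gr := fun σ τ e => Subtype.ext (Equiv.ext fun x =>
    ((Set.ext_iff.1 (congrArg Subtype.val e) (x, σ.1 x)).1 rfl).symm)
  have ap : ∀ {σ x y}, App J.E (J.ν (.w (.p .a .a)) (gr σ)) (J.nA x) (J.nA y) ↔ σ.1 x = y :=
    (J.app_nu (s := .a) (t := .a)).trans J.mem'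
  let F : PS G (El G A (.p (.w (.p .a .a)) (.w .a))) := ps {p | ∃ σ, p = (gr σ, (h σ).1)} (sym_all (by
    rintro g _ ⟨σ, rfl⟩
    exact ⟨g • σ, Prod.ext (gr_sm g σ) (congrArg Subtype.val (h3 g σ).symm)⟩))
  have aF : ∀ {a b}, App J.E (J.ν (.w _) F) a b ↔ ∃ σ, a = J.ν (.w (.p .a .a)) (gr σ) ∧
      b = J.sA (h σ).1 := J.app_iff.trans ⟨by
        rintro ⟨x, y, ⟨σ, e⟩, rfl, rfl⟩
        obtain ⟨rfl, rfl⟩ := Prod.ext_iff.1 e
        exact ⟨σ, rfl, rfl⟩, fun ⟨σ, a, b⟩ => ⟨_, _, ⟨σ, rfl⟩, a, b⟩⟩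
  refine ⟨J.M, J.E, J.zf, J.sA unA, J.ν (.w (.w (.p .a .a))) (ps (range gr) (sym_all (by
    rintro g _ ⟨σ, rfl⟩
    exact ⟨_, (gr_sm g σ).symm⟩))), J.fA ⟨Th, sym_all fun g _ a => Th.smul_mem g a⟩, J.ν (.w _) F,
    fun σ => ⟨fun a => ?_, fun ⟨a, b, c⟩ => ?_⟩, fun X => ⟨fun a => ?_, ?_⟩,
    J.all_mem.2 ?_, J.allS.2 fun X a => ?_⟩
  · obtain ⟨_, ⟨σ, rfl⟩, rfl⟩ := (J.mem _ _ _).1 a
    exact ⟨J.all_mem.2 fun p _ => ⟨_, _, J.memA.2 trivial, J.memA.2 trivial, J.pair .a .a p.1 p.2⟩,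
      J.allA.2 fun x _ => ⟨_, ⟨J.memA.2 trivial, ap.2 rfl⟩, fun y e => (J.elA e.1).elim fun y d => by
        rw [d.2, (ap (σ := σ) (x := x) (y := y)).1 (d.2 ▸ e.2)]⟩,
      J.allA.2 fun x _ => ⟨J.nA (σ.1.symm x), ⟨J.memA.2 trivial, ap.2 (σ.1.apply_symm_apply x)⟩,
        fun y e => (J.elA e.1).elim fun y d => by
          rw [d.2, ← (ap (σ := σ) (x := y) (y := x)).1 (d.2 ▸ e.2), symm_apply_apply]⟩⟩
  · obtain ⟨s, rfl⟩ := J.sub (.p .a .a) σ fun p e => by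
      obtain ⟨x, y, i, j, k⟩ := a p e
      obtain ⟨x, -, rfl⟩ := J.elA i
      obtain ⟨y, -, rfl⟩ := J.elA j
      exact ⟨(x, y), (J.isPair_iff (s := .a) (t := .a)).1 k⟩
    have ap' : ∀ {x y}, App J.E (J.ν (.w (.p .a .a)) s) (J.nA x) (J.nA y) ↔ (x, y) ∈ s.1 :=
      (J.app_nu (s := .a) (t := .a)).trans J.mem'
    have b1 : ∀ x, ∃ y, (x, y) ∈ s.1 ∧ ∀ y', (x, y') ∈ s.1 → y' = y := fun x => by
      obtain ⟨y, ⟨i, j⟩, k⟩ := b _ (J.memA.2 (mem_unA (A := A) x))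
      obtain ⟨y, -, rfl⟩ := J.elA i
      exact ⟨y, ap'.1 j, fun z l => J.nA_inj (k _ ⟨J.memA.2 trivial, ap'.2 l⟩)⟩
    have c1 : ∀ y, ∃ x, (x, y) ∈ s.1 ∧ ∀ x', (x', y) ∈ s.1 → x' = x := fun x => by
      obtain ⟨y, ⟨i, j⟩, k⟩ := c _ (J.memA.2 (mem_unA (A := A) x))
      obtain ⟨y, -, rfl⟩ := J.elA i
      exact ⟨y, ap'.1 j, fun z l => J.nA_inj (k _ ⟨J.memA.2 trivial, ap'.2 l⟩)⟩
    choose f f1 f2 using b1
    choose f' f3 f4 using c1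
    obtain ⟨K, k1, -, k2⟩ := ev.1 s.2
    refine J.mem'.2 ⟨⟨⟨f, f', fun x => (f4 _ _ (f1 x)).symm, fun y => (f2 _ _ (f3 y)).symm⟩,
      fin_mv k1 fun g e x => f2 _ _ ((k2 g e (x, f x)).2 (f1 x))⟩, Subtype.ext (Set.ext fun p =>
        ⟨fun e => ?_, fun e => (f2 _ _ e).symm⟩)⟩
    have := f1 p.1
    rwa [show f p.1 = p.2 from e] at this
  · obtain ⟨X, ⟨u, b, c, i, j, k, l⟩, rfl⟩ := J.elS a
    exact ⟨_, _, _, J.memA.2 (mem_unA u), J.memA.2 (mem_unA b), J.memA.2 (mem_unA c),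
      J.nA_inj.ne i, J.nA_inj.ne j, J.nA_inj.ne k, fun z => ⟨fun e => (J.elA e).elim fun x d =>
        d.2 ▸ ((l x).1 d.1).imp (congrArg J.nA) (Or.imp (congrArg J.nA) (congrArg J.nA)), by
          rintro (rfl | rfl | rfl) <;> exact J.memA.2 ((l _).2 (by simp))⟩⟩
  · rintro ⟨a, b, c, a', b', c', i, j, k, l⟩
    obtain ⟨X, -, rfl⟩ := J.subA (s := unA) (a := X) fun z e => by
      rcases (l z).1 e with rfl | rfl | rfl <;> assumption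
    obtain ⟨a, -, rfl⟩ := J.elA a'
    obtain ⟨b, -, rfl⟩ := J.elA b'
    obtain ⟨c, -, rfl⟩ := J.elA c'
    exact J.memS.2 ⟨a, b, c, mt (congrArg _) i, mt (congrArg _) j, mt (congrArg _) k, fun z => by
      simp only [← J.memA, l, J.nA_inj.eq_iff]⟩
  · rintro _ ⟨σ, rfl⟩
    refine ⟨_, ⟨J.memS.2 (h σ).2, aF.2 ⟨σ, rfl, rfl⟩⟩, fun y e => ?_⟩
    obtain ⟨τ, i, rfl⟩ := aF.1 e.2
    rw [gi (J.inj (.w (.p .a .a)) i)]
  · obtain ⟨σ, b⟩ := h2 ⟨X, a⟩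
    refine ⟨_, ⟨J.mem'.2 ⟨σ, rfl⟩, aF.2 ⟨σ, rfl, by rw [b]⟩⟩, fun y e => ?_⟩
    obtain ⟨τ, rfl, i⟩ := aF.1 e.2
    rw [h1 (b.trans (Subtype.ext (J.sA_inj i)))]

end Pool.Agent.Results.MP_7d095a_lc.Model
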